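import Pool.Agent.Lib.MP_410da7_agP.Cut
import Pool.Agent.Lib.MP_410da7_agP.Spe
import Pool.Agent.Lib.MP_410da7_agP.Spread
import Pool.Agent.Lib.MP_410da7_agP.G
import Pool.Agent.Lib.MP_410da7_agP.Mob
import Pool.Agent.Lib.MP_410da7_agP.TrA
import Pool.Agent.Lib.MP_410da7_agP.Fac
import Pool.Agent.Lib.MP_410da7_agP.Dim
import Pool.Agent.Lib.MP_410da7_agP.Nullst
import Pool.Agent.Lib.MP_410da7_agP.Val
import Pool.Agent.Lib.MP_410da7_agP.Kod
import Pool.Agent.Lib.MP_410da7_agP.Rlo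
import Pool.Agent.Lib.MP_410da7_agP.Reg
import Pool.Agent.Lib.MP_410da7_agP.Fre
import Pool.Agent.Lib.MP_410da7_agP.Hil
import Pool.Agent.Lib.MP_410da7_agP.Fib
import Pool.Agent.Lib.MP_410da7_agP.Bez
import Pool.Agent.Lib.MP_410da7_agP.Sys
import Pool.Agent.Lib.MP_410da7_agP.Non
import Pool.Agent.Lib.MP_410da7_agP.Ntw
import Pool.Agent.Lib.MP_410da7_agP.Lhi
import Pool.Agent.Lib.MP_410da7_agP.Cze
import Pool.Agent.Lib.MP_410da7_agP.Nil
import Pool.Agent.Lib.MP_410da7_agP.Int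
import Pool.Agent.Lib.MP_410da7_agP.Ran
import Pool.Agent.Lib.MP_410da7_agP.Deg
import Pool.Agent.Lib.MP_410da7_agP.Pai
import Pool.Agent.Lib.MP_410da7_agP.Num
import Pool.Agent.Lib.MP_410da7_agP.One
import Pool.Agent.Lib.MP_410da7_agP.Gen
import Pool.Agent.Lib.MP_410da7_agP.Flg
import Pool.Agent.Lib.MP_410da7_agP.Der
import Pool.Agent.Lib.MP_410da7_agP.Est
import Pool.Agent.Lib.MP_410da7_agP.CaB
import Pool.Agent.Lib.MP_410da7_agP.CaA
import Pool.Agent.Lib.MP_410da7_agP.Mai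

/-!
# MP_410da7_ag: `𝔸¹`-uniruledness of punctured cones

Let `V = {f₁ = ⋯ = f_r = 0} ⊆ 𝔸^N` be a quasi-smooth weighted complete intersection cone of dimension
`N - r ≥ 2`, with weights `w` and degrees `d`, and let `X = V ∖ {0}`, a smooth quasi-affine variety.
Suppose that `∑ w ≤ ∑ d`, or that there is `e ∈ ℕ^N` with an entry `≤ 1` such that
`∑ deg_e f_k < ∑ e_i` (for example, because some weight is at most `∑ w - ∑ d`), or that `V` is almost
terminal. Then the following are equivalent: `X` is `𝔸¹`-uniruled; `κ̄(X) = -∞`; `∑ d < ∑ w`.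

The definitions are in `Pool.Agent.Lib.MP_410da7_agP.Defs` (`QuasiSmooth`, `IsFunctionField`,
`charts`, `AlmostTerminal`, `IsResidueForm`), `Pool.Agent.Lib.MP_410da7_ag.T1Defs` (`A1UniruledOn`,
`LogKodairaNegInfOn`) and `Pool.Agent.Lib.MP_410da7_ag.Defs` (`logDiff`, `regDiff`).
-/

set_option autoImplicit false

namespace Pool.Agent.Lib.MP_410da7_ag.Moved.PuncturedCones

open MvPolynomial Pool.Agent.PC Pool.Agent.Lib.MP_410da7_ag

theorem result {N r : ℕ} {w : Fin N → ℕ} {d : Fin r → ℕ} {f : Fin r → MvPolynomial (Fin N) ℂ}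
    (hV : QuasiSmooth w d f) {K : Type} [Field K] [Algebra ℂ K] {x : Fin N → K}
    (hx : IsFunctionField f x)
    (h : (∑ i, w i ≤ ∑ k, d k) ∨
      (∃ e : Fin N → ℕ, ∑ k, (f k).weightedTotalDegree e < ∑ i, e i ∧ ∃ i, e i ≤ 1) ∨
      AlmostTerminal w f x) :
    List.TFAE [A1UniruledOn (charts x), LogKodairaNegInfOn (charts x) (N - r),
      ∑ k, d k < ∑ i, w i] := by
  have hB := stmtBez (stmtFre (stmtReg stmtRlo)) stmtHil stmtFib
  have hI := stmtInt (stmtNil stmtSys)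
  have hDeg := stmtDeg stmtSys stmtLhi hI stmtRan
  have hO := stmtOne stmtTrA stmtSys (stmtNon hB stmtSys) (stmtNtw hB stmtSys) (stmtCze stmtSys)
    hDeg stmtPai stmtNum
  have hDer := stmtDer stmtDim stmtFlg
  have hCB := stmtCaB stmtSys stmtDim stmtGen hDer (stmtEst stmtDim) stmtFac
  have hCA := stmtCaA stmtG stmtMob stmtTrA hO
  exact stmtMai stmtSys stmtDim (stmtKod stmtDim (stmtVal stmtNul))
    (stmtSpread stmtCut stmtSpe) hCA hCB hO stmtTrA N r w d f hV K x hx h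

end Pool.Agent.Lib.MP_410da7_ag.Moved.PuncturedCones
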