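import Pool.Agent.Lib.MP_410da7_agBP.Gn
import Pool.Agent.Lib.MP_410da7_agBP.Nak
import Pool.Agent.Lib.MP_410da7_agBP.Un
import Pool.Agent.Lib.MP_410da7_agBP.Ind
import Pool.Agent.Lib.MP_410da7_agBP.Two
import Pool.Agent.Lib.MP_410da7_agBP.Dic
import Pool.Agent.Lib.MP_410da7_agBP.Hom
import Pool.Agent.Lib.MP_410da7_agBP.Par
import Pool.Agent.Lib.MP_410da7_agBP.Npr
import Pool.Agent.Lib.MP_410da7_agBP.Nz
import Pool.Agent.Lib.MP_410da7_agBP.Rel
import Pool.Agent.Lib.MP_410da7_agBP.Kap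
import Pool.Agent.Lib.MP_410da7_agBP.Mul
import Pool.Agent.Lib.MP_410da7_agBP.Dg
import Pool.Agent.Lib.MP_410da7_agBP.Pw
import Pool.Agent.Lib.MP_410da7_agBP.Str
import Pool.Agent.Lib.MP_410da7_agBP.Alg
import Pool.Agent.Lib.MP_410da7_agBP.Trd
import Pool.Agent.Lib.MP_410da7_agBP.Key
import Pool.Agent.Lib.MP_410da7_agBP.Newt
import Pool.Agent.Lib.MP_410da7_agBP.Emb
import Pool.Agent.Lib.MP_410da7_agBP.Lpt
import Pool.Agent.Lib.MP_410da7_agBP.Lco
import Pool.Agent.Lib.MP_410da7_agBP.Lift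
import Pool.Agent.Lib.MP_410da7_agBP.Bib
import Pool.Agent.Lib.MP_410da7_agBP.Bir
import Pool.Agent.Lib.MP_410da7_agBP.Foot
import Pool.Agent.Lib.MP_410da7_agBP.Chk
import Pool.Agent.Lib.MP_410da7_agBP.Cls
import Pool.Agent.Lib.MP_410da7_agBP.Qs
import Pool.Agent.Lib.MP_410da7_agBP.Exv
import Pool.Agent.Lib.MP_410da7_agBP.Prm
import Pool.Agent.Lib.MP_410da7_agBP.Fin
import Pool.Agent.Lib.MP_410da7_agBP.Lin

/-!
# MP_410da7_ag: four lines (Brieskorn-Pham threefolds)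

Let `a₁, a₂, a₃, a₄ ≥ 1`, `V = {x₁^(a₁) + x₂^(a₂) + x₃^(a₃) + x₄^(a₄) = 0} ⊆ 𝔸⁴` and `X = V ∖ {0}`, a smooth
quasi-affine threefold. Then the following are equivalent: `X` is `𝔸¹`-uniruled; `κ̄(X) = -∞`;
`∑ 1/a_i > 1`.

The quotient of `X` by the group of all `z ∈ (ℂˣ)⁴` with `z₁^(a₁) = z₂^(a₂) = z₃^(a₃) = z₄^(a₄)` is the orbifold
`(ℙ², ∑ (1 - 1/a_i) L_i)` with four lines `L_i` in general position.

The definitions are in `Pool.Agent.Lib.MP_410da7_agP.Defs` (`IsFunctionField`, `charts`),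
`Pool.Agent.Lib.MP_410da7_ag.T1Defs` (`A1UniruledOn`, `LogKodairaNegInfOn`) and
`Pool.Agent.Lib.MP_410da7_ag.Defs` (`logDiff`, `regDiff`).
-/

set_option autoImplicit false

namespace Pool.Agent.Lib.MP_410da7_ag.Moved.FourLines

open Pool.Agent.PC Pool.Agent.Lib.MP_410da7_ag Pool.Agent.BP

/-- The theorem, if all exponents are at least two. -/
theorem two_le : StmtFin := by
  have hDic := stmtDic (stmtSpread stmtCut stmtSpe) stmtInd stmtTwo
  have hNz := stmtNz stmtHom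
  have hStr := stmtStr stmtHom (stmtKap hNz stmtHom) (stmtMul stmtHom) (stmtDg hNz) stmtPw
  have hTrd := stmtTrd stmtPw stmtAlg stmtHom
  have hKey := stmtKey stmtGn (stmtUn stmtNak) hDic stmtPar stmtNpr (stmtRel stmtHom) hStr hTrd
    stmtHom
  have hLpt := stmtLpt stmtNak
  have hLift := stmtLift stmtNewt stmtEmb hLpt (stmtLco stmtNak)
  have hFoot := stmtFoot (stmtBir hLpt stmtBib)
  exact stmtFin stmtDim (stmtKod stmtDim (stmtVal stmtNul)) stmtQs stmtExv stmtPrm stmtCls stmtChk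
    hLift hFoot hKey

theorem result (a : Fin 4 → ℕ) (ha : ∀ i, 1 ≤ a i) {K : Type} [Field K] [Algebra ℂ K]
    {x : Fin 4 → K}
    (hx : IsFunctionField (fun _ : Fin 1 => ∑ i, MvPolynomial.X i ^ a i) x) :
    List.TFAE [A1UniruledOn (charts x), LogKodairaNegInfOn (charts x) 3,
      1 < ∑ i, 1 / (a i : ℚ)] := by
  by_cases h : ∃ i, a i = 1
  · obtain ⟨i, hi⟩ := h
    exact lin_case (stmtSpread stmtCut stmtSpe) a ha i hi x hx
  · push Not at h
    exact two_le a (fun i => by have := ha i; have := h i; omega) K x hx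

end Pool.Agent.Lib.MP_410da7_ag.Moved.FourLines
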