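import Pool.Agent.Lib.MP_410da7_agS.STfae

/-!
# MP_410da7_ag: logarithmic Calabi–Yau degree, with arbitrary singularities

Let `f₁,…,f_r` and `g₁,…,g_s` be complex polynomials in `N` variables and `w ∈ ℕ^N` a weight with all
`w_l ≥ 1` such that `∑ deg_w f_k + ∑ deg_w g_j ≤ ∑ w_l` (equality allowed), and let
`X₀ = {f₁ = ⋯ = f_r = 0, g₁ ⋯ g_s ≠ 0} ⊆ 𝔸^N` be reduced and irreducible of dimension `N - r`, with
coordinate ring `R`, coordinate functions `x` (`IsCoordRing f g x`) and function field `K`. Nothing is
assumed about the singularities of `X₀`, nor about those of its closure at infinity. Then the following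
are equivalent:

* `X₀` is `𝔸¹`-uniruled;
* `κ̄ = -∞`, where `κ̄` is computed with forms that are regular at the valuations with centre on `X₀`
  and have at most logarithmic poles at the others: this is `κ̄(X')` for every smooth variety `X'` with
  a proper birational morphism `X' → X₀`, for example `X' = X₀` if `X₀` is smooth, or a resolution of
  singularities of `X₀`;
* the logarithmic geometric genus, defined in the same way, is zero;
* for some `e`, through every point of `X₀` passes a nonconstant morphism `𝔸¹ → X₀` with coordinates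
  of degree at most `e w_l`.

If `X₀` is smooth and these conditions hold, then moreover, for some `e`, through every point of
`𝔸^N` passes a nonconstant polynomial curve, with coordinates of degree at most `e w_l`, along which
all the `f_k` and `g_j` are constant (this fails for singular `X₀`, for example for the cone over a
plane cubic).

The definitions are in `Pool.Agent.Lib.MP_410da7_ag.Defs` (`A1Uniruled`, `LogKodairaNegInf`,
`IsCoordRing`, `dim`), `Pool.Agent.Lib.MP_410da7_ag.Statement` (`Points`, `JacobianSmooth`,
`OnAffineLine`) and `Pool.Agent.Lib.MP_410da7_ag.CYFinal` (`LogGenusZero`, `FibreCurves`).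
-/

set_option autoImplicit false

namespace Pool.Agent.Lib.MP_410da7_ag.Moved.LogCalabiYauDegree

open MvPolynomial Pool.Agent.Lib.MP_410da7_ag

theorem result {N r s : ℕ} (f : Fin r → MvPolynomial (Fin N) ℂ)
    (g : Fin s → MvPolynomial (Fin N) ℂ) (w : Fin N → ℕ) (hw : ∀ l, 0 < w l)
    (hle : ∑ k, (f k).weightedTotalDegree w + ∑ j, (g j).weightedTotalDegree w ≤ ∑ l, w l)
    (R K : Type) [CommRing R] [IsDomain R] [Algebra ℂ R] [Field K] [Algebra R K]
    [IsFractionRing R K] [Algebra ℂ K] [IsScalarTower ℂ R K] (x : Fin N → R)
    (hR : IsCoordRing f g x) (hdim : dim R + r = N) :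
    List.TFAE [A1Uniruled R, LogKodairaNegInf R K, LogGenusZero R K,
      ∃ e : ℕ, ∀ u ∈ Points f g, OnAffineLine f g (fun l => e * w l) u] ∧
    (JacobianSmooth f g → A1Uniruled R → ∃ e : ℕ, FibreCurves f g w e) :=
  ⟨sing_tfae f g w hw hle x hR hdim,
    fun hsm h => ((cy_tfae f g w hw hle hsm x hR (K := K)).out 0 3).mp h⟩

end Pool.Agent.Lib.MP_410da7_ag.Moved.LogCalabiYauDegree
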