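import Pool.Agent.Lib.MP_410da7_agB.Final

/-!
# MP_410da7_ag: complements of nef divisors

Let `Xbar ⊆ ℙ^M` be a smooth projective complex variety, `H` an effective nef divisor on `Xbar` whose
support `D` has simple normal crossings (`D = ∅` is allowed), and `X = Xbar ∖ D`. Let `A` be the hyperplane
class. The following are equivalent:

* `X` is `𝔸¹`-uniruled;
* `K + D` is not pseudo-effective;
* there is a covering family of curves on `Xbar` on which `K + D` is negative.

If the adjoint ring `⊕_{m, e ≥ 0} H⁰(Xbar, m (K + D) + e A)` is finitely generated, they are also
equivalent to `κ̄(X) = -∞`.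

By Hironaka's theorem (not used here) all smooth affine varieties, all smooth projective varieties, and
all smooth varieties which are projective over an affine variety are of this form; for these one can take `H`
semi-ample, but this is not needed.

The definitions are in `Pool.Agent.Lib.MP_410da7_agB.Statement3` (and `HasNegFamily` in
`Pool.Agent.Lib.MP_410da7_agB.Final`). The function field `K` of `Xbar` is generated by the homogeneous
coordinates `Y_0 = 1, Y_1, ..., Y_M`, and `H` is given by homogeneous polynomials `G_0, ..., G_s` of degree
`d₀ ≥ 1` whose restrictions to `Xbar` generate the ideal of `H`.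

The proof. (a) If `K + D` is not pseudo-effective there is a negative covering family of curves,
complete intersections of members of a linear system which approximates the positive part of
`m (K + D) + e A` (`Pool.Agent.Lib.MP_410da7_agN`; the geometry is in `MP_410da7_agB`, `HC` to `HF`).
(b) Let `(m₀, e₀)` be the numbers of the family, embed `Xbar` by `B = e (κ H + A) + A` with `κ` large against
`m₀` and `e (κ H + A)` generated by sections, and let `tt` be the coordinates which vanish on `e κ H`. After
reduction modulo `p` the Frobenius twists of the generic curve have deformations which keep the contact with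
`D`, so that the coordinates in `tt` have poles of degree `(e + 1) A · C` only (`MP_410da7_agB`, `SpecF`).
The bubble of these deformations at one of the fixed points is a rational curve whose degree with respect to
the coordinates in `tt` is less than `e κ` (`SpecG`: the valued field of the family is of rank one, and
the bubble is found on a disc with centre a fixed point, or with centre a zero of the first coordinate).
(c) Back to characteristic `0` (`SpecE`, `SpecD`), the curve goes through the generic point, and it meets
`D` at most at one place: at every other place the coordinates in `tt` would be divisible by the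
`e κ`-th power of a prime (`HK`). This gives a curve `𝔸¹ → X` through the generic point, and by cutting
down a covering family (`MP_410da7_agV.Line.cut`). (d) Conversely an `𝔸¹`-uniruled `X` has no sections of
`m (K + D) + e A` for `e` small against `m` (`HH`).
-/

set_option autoImplicit false

namespace Pool.Agent.Lib.MP_410da7_ag.Moved.NefBoundary

open MvPolynomial KaehlerDifferential Pool.Agent.Lib.MP_410da7_agB

theorem result {K : Type} [Field K] [Algebra ℂ K] {n M s d₀ : ℕ} (Y : Fin (M + 1) → K)
    (G : Fin (s + 1) → MvPolynomial (Fin (M + 1)) ℂ) (Ψ : Ω[K⁄ℂ] [⋀^Fin n]→ₗ[K] K) (hY : Y 0 = 1)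
    (hgen : IntermediateField.adjoin ℂ (Set.range Y) = ⊤) (hn : Algebra.trdeg ℂ K = n)
    (hΨ : Ψ ≠ 0) (hd : 1 ≤ d₀) (hG : ∀ j, (G j).IsHomogeneous d₀) (hs : LogSmoothPair n Y G)
    (hnef : IsNef d₀ Y G) :
    List.TFAE [A1UniruledCompl n Y G, PairNotPseff d₀ Y G Ψ, HasNegFamily Y G Ψ] ∧
    ((pairAdjointRing d₀ Y G Ψ).FG → (A1UniruledCompl n Y G ↔ PairKodairaNegInf d₀ Y G Ψ)) :=
  t1Final Y G Ψ hY hgen hn hΨ hd hG hs hnef

end Pool.Agent.Lib.MP_410da7_ag.Moved.NefBoundary
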