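import Pool.Agent.Lib.MP_410da7_agA.Assembly
import Pool.Agent.Lib.MP_410da7_agA.H5

/-!
# MP_410da7_ag: smooth affine varieties with negative curves (log Miyaoka-Mori)

Let `X` be a smooth irreducible affine complex variety with coordinate ring `R`, function field `K` and
coordinate functions `x_1, ..., x_N` (any generators of `R`). Then `X` is `𝔸¹`-uniruled if and only if
there is a covering family of curves which is negative for `K + D`, `D` the boundary of a suitable
compactification of `X` with simple normal crossings boundary: the generic curve `C` has the function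
field `Λ` over `L` and there is a rational section of `m₀ (K + D) + e₀ H`, `m₀, e₀ ≥ 1`, without zeros
on `C`, where `H = max(0, - ord x_l)` is the pull-back of the hyperplane at infinity (so that
`(K + D) · C ≤ - (e₀/m₀) H · C < 0`), and `C` meets `D` only in generic points of divisors.

The definitions are `A1Uniruled`, `dim` in `Pool.Agent.Lib.MP_410da7_ag.Defs` and `NegCurve` in
`Pool.Agent.Lib.MP_410da7_agA.SDefs`. Nothing is assumed besides smoothness.

`h2All` (a negative family gives `𝔸¹`-uniruledness) is log bend and break: after reduction modulo `p`, an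
elementary count of the deformations of the Frobenius twists of the generic curve which keep its contact
with the boundary shows that the generic point of `X` is on a nonconstant curve `𝔸¹ → X` of bounded
degree; this is carried back to characteristic `0` by elimination. `h5` is the converse.
-/

set_option autoImplicit false

namespace Pool.Agent.Lib.MP_410da7_ag.Moved.NegativeCurves

open KaehlerDifferential Pool.Agent.Lib.MP_410da7_ag Pool.Agent.Lib.MP_410da7_agA

theorem result (R K : Type) [CommRing R] [IsDomain R] [Algebra ℂ R] [Algebra.Smooth ℂ R] [Field K]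
    [Algebra R K] [IsFractionRing R K] [Algebra ℂ K] [IsScalarTower ℂ R K] {N : ℕ} (x : Fin N → R)
    (hx : Algebra.adjoin ℂ (Set.range x) = ⊤) (Ψ : Ω[K⁄ℂ] [⋀^Fin (dim R)]→ₗ[K] K) (hΨ : Ψ ≠ 0) :
    A1Uniruled R ↔
      ∃ (m₀ e₀ : ℕ) (L Λ : Type) (_ : Field L) (_ : Field Λ) (_ : Algebra ℂ L) (_ : Algebra L Λ)
        (_ : Algebra K Λ) (_ : Algebra ℂ Λ) (_ : IsScalarTower ℂ L Λ) (_ : IsScalarTower ℂ K Λ)
        (a : Λ), NegCurve Ψ (fun l => algebraMap R K (x l)) m₀ e₀ L Λ a := by
  refine ⟨fun h => h5 R K (dim R) N Ψ x hx (sit_of x hx Ψ hΨ) h, ?_⟩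
  rintro ⟨m₀, e₀, L, Λ, _, _, _, _, _, _, _, _, a, ha⟩
  exact h2All R K (dim R) N m₀ e₀ Ψ x hx (sit_of x hx Ψ hΨ) L Λ a ha

end Pool.Agent.Lib.MP_410da7_ag.Moved.NegativeCurves
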