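import Pool.Agent.Lib.MP_410da7_ag.Statement

/-!
# MP_410da7_ag: `𝔸¹`-uniruledness and `κ̄ = -∞` for nondegenerate complete intersections

Let `f₁,…,f_r` and `g₁,…,g_s` be nonzero complex polynomials in `N` variables that are nondegenerate
with respect to their Newton polytopes, and let
`X = {f₁ = ⋯ = f_r = 0, g₁ ⋯ g_s ≠ 0} ⊆ 𝔸^N`, with coordinate ring `R`, coordinate functions `x`
(`IsCoordRing f g x`) and function field `K`. If `X` is smooth, irreducible and not contained in a
coordinate hyperplane, then the following are equivalent: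

* `X` is `𝔸¹`-uniruled;
* `κ̄(X) = -∞`;
* there is a weight `w ∈ ℕ^N` with `∑ deg_w f_k + ∑ deg_w g_j < ∑ w_l`;
* no point of the Minkowski sum of the Newton polytopes of the `f_k` and `g_j` has all its
  coordinates `≥ 1`.

The definitions are in `Pool.Agent.Lib.MP_410da7_ag.Defs` (`A1Uniruled`, `LogKodairaNegInf`,
`Nondegenerate`, `IsCoordRing`), `Pool.Agent.Lib.MP_410da7_ag.Newton` (`newton`) and
`Pool.Agent.Lib.MP_410da7_ag.Statement` (`JacobianSmooth`, `LowDegree`).
`isCoordRing_coordRing` and `exists_equiv` in `Pool.Agent.Lib.MP_410da7_ag.Final` show that the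
localization `ℂ[x]/(f)[1/∏ g]` is, up to isomorphism, the only coordinate ring in the sense of
`IsCoordRing`. For every affine variety the implication from `𝔸¹`-uniruled to `κ̄ = -∞` (known) is
proved in `Pool.Agent.Lib.MP_410da7_ag.DMain` (`logKodairaNegInf_of_a1Uniruled`).
-/

set_option autoImplicit false

namespace Pool.Agent.Lib.MP_410da7_ag.Moved.NondegenerateCriterion

open MvPolynomial Pool.Agent.Lib.MP_410da7_ag
open scoped Pointwise

theorem result {N r s : ℕ} (f : Fin r → MvPolynomial (Fin N) ℂ)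
    (g : Fin s → MvPolynomial (Fin N) ℂ) (hf : ∀ k, f k ≠ 0) (hg : ∀ j, g j ≠ 0)
    (hnd : Nondegenerate f g) (hsm : JacobianSmooth f g)
    (R K : Type) [CommRing R] [IsDomain R] [Algebra ℂ R] [Field K] [Algebra R K]
    [IsFractionRing R K] [Algebra ℂ K] [IsScalarTower ℂ R K] (x : Fin N → R)
    (hR : IsCoordRing f g x) (hx : ∀ l, x l ≠ 0) :
    List.TFAE [A1Uniruled R, LogKodairaNegInf R K, ∃ w, LowDegree f g w,
      ∀ q ∈ (∑ k, newton (f k)) + ∑ j, newton (g j), ∃ l, q l < 1] := by
  tfae_have 1 → 2 := logKodairaNegInf_of_a1Uniruled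
  tfae_have 2 → 3 := fun h => exists_weight f g hf hg hnd (fun u hu hu' => hsm u ⟨hu, hu'⟩)
    x hR hx (trdeg_isCoordRing f g x hR) h
  tfae_have 3 → 1 := fun ⟨w, hw⟩ => a1Uniruled_of_isCoordRing (K := K) f g x hR w hw
  tfae_have 3 ↔ 4 := weight_iff_newton f g hf hg
  tfae_finish

end Pool.Agent.Lib.MP_410da7_ag.Moved.NondegenerateCriterion
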